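import Pool.Agent.Lib.MP_8865d3_nt.Sx.Loc
import Pool.Agent.Lib.MP_8865d3_nt.Lr.Det

/-! The join of two families of forms. -/

namespace Pool.Agent.Lib.MP_8865d3_nt.Sx

open MvPolynomial Pool.Agent.Lib.MP_651af7_nt Av Bx Lr

variable {K κ α β γ : Type} [Field K] {e e' D g : ℕ} {F : β → MvPolynomial κ K}
  {G : γ → MvPolynomial κ K}

/-- The forms of both families, brought to one degree. -/
noncomputable def jn (F : β → MvPolynomial κ K) (e : ℕ) (G : γ → MvPolynomial κ K) (e' : ℕ) :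
    β × (Fin e' → κ) ⊕ γ × (Fin e → κ) → MvPolynomial κ K :=
  Sum.elim (fun p => F p.1 * ∏ i, X (p.2 i)) fun p => G p.1 * ∏ i, X (p.2 i)

theorem mon_hom (μ : Fin D → κ) : (∏ i, X (μ i) : MvPolynomial κ K).IsHomogeneous D := by
  simpa using IsHomogeneous.prod Finset.univ _ (fun _ => 1) fun i _ => isHomogeneous_X K (μ i)

theorem jn_hom (hF : ∀ l, (F l).IsHomogeneous e) (hG : ∀ l, (G l).IsHomogeneous e') (p) :
    (jn F e G e' p).IsHomogeneous (e + e') := by
  rcases p with p | p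
  · exact (hF _).mul (mon_hom _)
  · exact Nat.add_comm e' e ▸ (hG _).mul (mon_hom _)

theorem lam_le [Fintype κ] [Fintype α] [Fintype β] (v : AbsoluteValue K ℝ)
    {P : α → MvPolynomial κ K} (j : β × (Fin D → κ) → α)
    (h : ∀ p, P (j p) = F p.1 * ∏ i, X (p.2 i)) {x : κ → K} (x0 : x ≠ 0)
    (xF : (fun l => eval x (F l)) ≠ 0) :
    (fun a => eval x (P a)) ≠ 0 ∧ lam v P (e + D) x ≤ lam v F e x := by
  have : Nonempty κ := ⟨(Function.ne_iff.1 x0).choose⟩
  have : Nonempty β := ⟨(Function.ne_iff.1 xF).choose⟩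
  obtain ⟨a, ha⟩ := exists_nm v x
  obtain ⟨l, hl⟩ := exists_nm v fun l => eval x (F l)
  have p1 := nm_pos v x0
  have p2 := nm_pos v xF
  have h1 : v (eval x (P (j (l, fun _ => a)))) = nm v (fun l => eval x (F l)) * nm v x ^ D := by
    simp only [h, map_mul, map_pow, eval_X, ha, hl, Finset.prod_const, Finset.card_fin]
  have h2 : (fun a => eval x (P a)) ≠ 0 :=
    Function.ne_iff.2 ⟨_, v.pos_iff.1 ((mul_pos p2 (pow_pos p1 D)).trans_eq h1.symm)⟩
  have p3 := nm_pos v h2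
  refine ⟨h2, Real.log_le_log (div_pos (pow_pos p1 _) p3) ((div_le_div_iff₀ p3 p2).2 ?_)⟩
  change nm v x ^ (e + D) * _ ≤ nm v x ^ e * _
  rw [pow_add, mul_assoc, mul_comm (_ ^ D), ← h1]
  exact mul_le_mul_of_nonneg_left (le_nm v (fun a => eval x (P a)) _) (by positivity)

theorem hv_jn [Nonempty γ] {I : Ideal (MvPolynomial κ K)} (H : HV I g F G) :
    HV I g F (jn F e G e') := by
  intro E _ _ ξ h v hv p θ hθ S
  have key : ∀ i, ξ i ≠ 0 → (∀ s, v (ξ s) ≤ v (ξ i)) → ∀ s, v (ξ s / ξ i) ≤ 1 := fun i _ h2 s => by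
    rw [map_div₀]
    exact div_le_one_of_le₀ (h2 s) zero_le
  have mon : ∀ i, ξ i ≠ 0 → (∀ s, v (ξ s) ≤ v (ξ i)) → ∀ {D : ℕ} (μ : Fin D → κ),
      v (aeval (fun s => ξ s / ξ i) (∏ i, X (μ i) : MvPolynomial κ K)) ≤ 1 := fun i h1 h2 D μ => by
    simp only [map_prod, aeval_X]
    exact Finset.prod_le_one' fun j _ => key i h1 h2 _
  rcases p with p | p
  · obtain ⟨i, -, h1, h2, -⟩ := H E ξ h v hv (Classical.arbitrary γ) θ hθ S
    refine ⟨i, p.1, h1, h2, ?_⟩
    rw [jn, Sum.elim_inl, map_mul (aeval _), map_mul, map_mul]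
    refine (mul_le_of_le_one_right' ?_).trans (mul_le_of_le_one_right' (mon i h1 h2 _))
    simpa [minors] using val_det_le v (c := fun _ => 1) (M := Matrix.of fun l j =>
      (Fin.cons (fun s => ξ s / ξ i) fun j s => θ j (ξ s / ξ i) : Fin (g + 1) → κ → E) l (S j))
      fun l j => by
        cases l using Fin.cases
        · exact key i h1 h2 _
        · exact (hθ _ _).trans (key i h1 h2 _)
  · obtain ⟨i, l, h1, h2, h3⟩ := H E ξ h v hv p.1 θ hθ S
    refine ⟨i, l, h1, h2, le_trans ?_ h3⟩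
    rw [jn, Sum.elim_inr, map_mul (aeval _), mul_right_comm, map_mul]
    exact mul_le_of_le_one_right' (mon i h1 h2 _)

end Pool.Agent.Lib.MP_8865d3_nt.Sx
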