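import Pool.Agent.Lib.MP_8865d3_nt.Sa.MFin
import Pool.Agent.Lib.MP_8865d3_nt.Sx.Loc
import Pool.Agent.Lib.MP_651af7_nt.Sc.Cov

/-! The inequality over the field of definition, on the cover and on its base. -/

namespace Pool.Agent.Lib.MP_8865d3_nt.Sx

open MvPolynomial Module NumberField Height Pool.Agent.Lib.MP_651af7_nt Av Bx Ds Et Sc
open Pool.Agent.Lib.MP_8865d3_nt.Sa
open Pool.Agent.Lib.MP_8865d3_nt.Sv (isum plc isum_plc isum_mono isum_add SI)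

variable {L σ κ μ ν β γ T : Type} [Field L] [NumberField L] [Fintype σ] [Fintype κ] [Fintype μ]
  [Fintype ν] [Fintype β] [Fintype γ] [Fintype T] {s n g d e e' : ℕ}
  {I₁ : Ideal (MvPolynomial σ L)} {χ : Fin (n + 1) × μ → MvPolynomial σ L} {ε : ℝ}

/-- The conclusion on the cover. -/
def Cc (I : Ideal (MvPolynomial σ L)) (g : ℕ) (χ : Fin (n + 1) × μ → MvPolynomial σ L)
    (F : β → MvPolynomial σ L) (e : ℕ) (G : γ → MvPolynomial σ L) (e' : ℕ) (ε : ℝ) : Prop :=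
  ∃ (Θ : MvPolynomial σ L) (t : ℕ), Θ.IsHomogeneous t ∧ Θ ∉ I ∧
    ∀ S : Finset (FinitePlace L), ∃ c C : ℝ, 0 ≤ c ∧ ∀ x : σ → L, x ≠ 0 →
      (∀ P ∈ I, eval x P = 0) → eval x Θ ≠ 0 → (fun l => eval x (F l)) ≠ 0 →
      (fun l => eval x (G l)) ≠ 0 →
      (∀ j, (fun m => eval x (χ (j, m))) ≠ 0) ∧ finrank L (tsp I x) = g + 1 ∧
      ∀ β : Fin (g + 1) → σ → L, LinearIndependent L β → (∀ l, β l ∈ tsp I x) →
      hK x β + (∑ w : InfinitePlace L, w.mult * (lam w.1 F e x - lam w.1 G e' x) +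
        ∑ w ∈ S, (lam w.1 F e x - lam w.1 G e' x)) ≤
        ε * logHeight x + c * cnt S (fun j => eval x (χ j)) + C

theorem of_model (M : SG L (ν × (Fin s → μ)) s n) {tm : Fin s → Fin n}
    (ht : Function.Surjective tm) (hcl : ∀ a b, M.B.cl a = M.B.cl b ↔ a.2 = b.2) (hI : Var I₁)
    (hs : Smooth I₁ g) {E : ν → MvPolynomial σ L}
    {ψ : σ → MvPolynomial (SI (ν × (Fin s → μ)) s) L} (j₁ : Inv I₁ M.B.I (zt tm E χ) ψ)
    (j₂ : Inv M.B.I I₁ ψ (zt tm E χ)) (hd : ∀ j, (χ j).IsHomogeneous d) {j : Fin (n + 1) × μ}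
    (hj : χ j ∉ I₁) {F : β → MvPolynomial σ L} {G : γ → MvPolynomial σ L}
    (hF : ∀ l, (F l).IsHomogeneous e) (hG : ∀ l, (G l).IsHomogeneous e') (hv : VI I₁ g F G)
    (hε : 0 < ε) : Cc I₁ g χ F e G e' ε := by
  have i1 : ∀ P : MvPolynomial σ L, map (algebraMap L L) P = P := fun P => map_id P
  have i2 : I₁.map (map (algebraMap L L)) = I₁ := by
    rw [show (map (algebraMap L L) : MvPolynomial σ L →+* _) = RingHom.id _ from
      RingHom.ext i1, Ideal.map_id]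
  have i3 := core (k := L) M hI.hom (i2.symm ▸ hI.isPrime) hs (i2.symm ▸ j₁) (i2.symm ▸ j₂) hF hG
    hv hε
  rw [i2] at i3
  simp only [i1] at i3
  obtain ⟨Θ, t, t1, t2, t3⟩ := i3
  refine ⟨Θ * χ j, t + d, t1.mul (hd j), fun e => (hI.isPrime.mem_or_mem e).elim t2 hj, fun S => ?_⟩
  obtain ⟨c₀, C, hc, hC'⟩ := t3 S
  refine ⟨c₀ * (2 ^ s * s), C, by positivity, fun x x0 xz xΘ xF xG => ?_⟩
  rw [map_mul, mul_ne_zero_iff] at xΘ
  obtain ⟨u1, u2, u3⟩ := hC' x x0 xz xΘ.1 xF xG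
  rw [eval_zt] at u1 u3
  obtain ⟨v1, v2⟩ := ne_of_zt ht (fun ε => by
    obtain ⟨a, -⟩ := u1 M.B.ao
    obtain ⟨b, hb, hu⟩ := u1 (a.1, ε)
    exact Function.ne_iff.2 ⟨b.1, by
      have : b = (b.1, ε) := Prod.ext rfl ((hcl b (a.1, ε)).1 hb)
      exact (this ▸ hu).ne_zero⟩) (Function.ne_iff.2 ⟨j, xΘ.2⟩)
  refine ⟨v2, u2, fun b b1 b2 => (u3 b b1 b2).trans ?_⟩
  have := mul_le_mul_of_nonneg_left (df_zt_le S tm (y := fun j => eval x (χ j)) v1 v2) hc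
  linarith

omit [Fintype μ] in
theorem Cc.base {I : Ideal (MvPolynomial κ L)} {π : T → κ → MvPolynomial σ L} (h5 : Cov I₁ I d π)
    (h6 : ∀ t t' i j, π t i * π t' j - π t j * π t' i ∈ I₁)
    (hI₁ : ∀ P ∈ I₁, ∀ d, homogeneousComponent d P ∈ I₁)
    (hI : ∀ P ∈ I, ∀ d, homogeneousComponent d P ∈ I) {F : β → MvPolynomial κ L}
    {G : γ → MvPolynomial κ L} (hF : ∀ l, (F l).IsHomogeneous e) (hG : ∀ l, (G l).IsHomogeneous e')
    (H : Cc I₁ g χ (fun p : T × β => aeval (π p.1) (F p.2)) ((d + 1) * e)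
      (fun p : T × γ => aeval (π p.1) (G p.2)) ((d + 1) * e') ε) :
    ∃ (Θ : MvPolynomial σ L) (t : ℕ), Θ.IsHomogeneous t ∧ Θ ∉ I₁ ∧
      ∀ S : Finset (FinitePlace L), ∃ c C : ℝ, 0 ≤ c ∧ ∀ (y : σ → L) (x : κ → L) (s : T → L),
        y ≠ 0 → (∀ P ∈ I₁, eval y P = 0) → eval y Θ ≠ 0 → x ≠ 0 →
        (∀ t i, eval y (π t i) = s t * x i) → (fun l => eval x (F l)) ≠ 0 →
        (fun l => eval x (G l)) ≠ 0 → finrank L (tsp I x) = g + 1 →
        (∀ j, (fun m => eval y (χ (j, m))) ≠ 0) ∧ ∀ w : Fin (g + 1) → κ → L,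
        LinearIndependent L w → (∀ l, w l ∈ tsp I x) →
        hK x w + isum (plc S) (fun v => lam v F e x - lam v G e' x) ≤
          ε * logHeight y + c * cnt S (fun j => eval y (χ j)) + C := by
  obtain ⟨Θ, t, t1, t2, t3⟩ := H
  obtain ⟨C₁, t4⟩ := hK_cov (g := g) h5 h6 hI₁ hI
  choose c hc using fun v => del_bd v h5 hI₁
  refine ⟨Θ, t, t1, t2, fun S => ?_⟩
  obtain ⟨c₀, C, c0, hC⟩ := t3 S
  refine ⟨c₀, C + C₁ + isum (plc S) fun v => (e + e') * c v, c0,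
    fun y x s y0 yz yΘ x0 hx xF xG r1 => ?_⟩
  obtain ⟨t₀, l₀, h0⟩ := h5.ne L y y0 yz
  have s0 : s ≠ 0 := Function.ne_iff.2 ⟨t₀, left_ne_zero_of_mul ((hx t₀ l₀).symm.trans_ne h0)⟩
  have k1 := fun v => lam_cov v (d := d + 1) hF hx y0 s0 x0 xF
  have k2 := fun v => lam_cov v (d := d + 1) hG hx y0 s0 x0 xG
  have v₀ : AbsoluteValue L ℝ := (Classical.arbitrary (InfinitePlace L)).1
  obtain ⟨r0, r2, e2⟩ := hC y y0 yz yΘ (k1 v₀).1 (k2 v₀).1
  refine ⟨r0, fun w b1 b2 => ?_⟩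
  let w' := Module.finBasisOfFinrankEq L _ r2
  have b3 := w'.linearIndependent.map' (tsp I₁ y).subtype (Submodule.ker_subtype _)
  have e3 := e2 _ b3 fun l => (w' l).2
  have e4 := t4 y x s y0 yz x0 hx r2 r1 w _ b1 b2 b3 fun l => (w' l).2
  have e5 := isum_mono (plc S) (f := fun v => lam v F e x - lam v G e' x)
    (g := fun v => (lam v (fun p : T × β => aeval (π p.1) (F p.2)) ((d + 1) * e) y -
      lam v (fun p : T × γ => aeval (π p.1) (G p.2)) ((d + 1) * e') y) + (e + e') * c v)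
    fun v _ _ => by
      have m1 := mul_le_mul_of_nonneg_left (abs_le.1 (hc v y y0 yz)).1 (Nat.cast_nonneg (α := ℝ) e)
      have m2 := mul_le_mul_of_nonneg_left (abs_le.1 (hc v y y0 yz)).2 (Nat.cast_nonneg (α := ℝ) e')
      rw [(k1 v).2, (k2 v).2]
      linarith
  rw [isum_add, isum_plc S fun v => _ - lam v _ ((d + 1) * e') y] at e5
  linarith

end Pool.Agent.Lib.MP_8865d3_nt.Sx
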