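import Pool.Agent.Lib.MP_8865d3_nt.Sa.MDesc

/-! Descent of the model and of a variety over the algebraic closure to a number field. -/

namespace Pool.Agent.Lib.MP_8865d3_nt.Sx

open MvPolynomial Pool.Agent.Lib.MP_651af7_nt Av Bx Ds Pool.Agent.Lib.MP_8865d3_nt Sv Sa

variable {k : Type} [Field k] [NumberField k] {s n : ℕ} {A G ι κ ν μ σ : Type} [AddCommGroup A]
  [AddCommGroup G] [Fintype κ] [Fintype ν] [Fintype μ] [Fintype σ]
  {co : A → ι → AlgebraicClosure k} {c : A → κ → AlgebraicClosure k} {π : G →+ A}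
  {θ : Additive (Fin n → (AlgebraicClosure k)ˣ) →+ G}
  {y : G → Fin (n + 1) × μ → AlgebraicClosure k} {tm : Fin s → Fin n}
  {E : G → ν → AlgebraicClosure k} {J : Ideal (MvPolynomial κ (AlgebraicClosure k))}
  {Φ : κ → κ → MvPolynomial (κ ⊕ κ) (AlgebraicClosure k)}

/-- Adjoin the coefficients of the ideals, the group laws and the maps. -/
theorem descend (h : Semi co π θ y) (hE : Tens c π y tm E) (hJ : Pts J c) (hΦ : Sq c Φ)
    (hC : Cone tm fun p => zt tm (E p) (y p)) {I : Ideal (MvPolynomial σ (AlgebraicClosure k))}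
    {χ : Fin (n + 1) × μ → MvPolynomial σ (AlgebraicClosure k)}
    {E' : ν → MvPolynomial σ (AlgebraicClosure k)}
    {ψ : σ → MvPolynomial (SI (ν × (Fin s → μ)) s) (AlgebraicClosure k)}
    (h₁ : Inv I (cid fun p => zt tm (E p) (y p)) (zt tm E' χ) ψ)
    (h₂ : Inv (cid fun p => zt tm (E p) (y p)) I ψ (zt tm E' χ))
    (L₀ : IntermediateField k (AlgebraicClosure k)) [FiniteDimensional k L₀] :
    ∃ L : IntermediateField k (AlgebraicClosure k), ∃ _ : NumberField L, L₀ ≤ L ∧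
      ∃ (M : SG L (ν × (Fin s → μ)) s n) (E₀ : ν → MvPolynomial σ L)
        (χ₀ : Fin (n + 1) × μ → MvPolynomial σ L)
        (ψ₀ : σ → MvPolynomial (SI (ν × (Fin s → μ)) s) L),
        (∀ a b, M.B.cl a = M.B.cl b ↔ a.2 = b.2) ∧
        (∀ j, map (algebraMap L (AlgebraicClosure k)) (χ₀ j) = χ j) ∧
        Inv (dn L I) M.B.I (zt tm E₀ χ₀) ψ₀ ∧ Inv M.B.I (dn L I) ψ₀ (zt tm E₀ χ₀) := by
  obtain ⟨Ψ, hΨ, hw⟩ := hE.law
  obtain ⟨S, hS⟩ : (cid fun p => zt tm (E p) (y p)).FG := IsNoetherian.noetherian _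
  obtain ⟨T, hT⟩ : J.FG := IsNoetherian.noetherian J
  obtain ⟨K₁, f₁, a₁⟩ := mdesc_field (k := k) (S.finite_toSet.union (Set.finite_range ψ))
  obtain ⟨K₂, f₂, a₂⟩ := mdesc_field (k := k) ((Set.finite_range E').union (Set.finite_range χ))
  obtain ⟨K₃, f₃, a₃⟩ := mdesc_field (k := k) (Set.finite_range (Function.uncurry Ψ))
  obtain ⟨K₄, f₄, a₄⟩ := mdesc_field (k := k) T.finite_toSet
  obtain ⟨K₅, f₅, a₅⟩ := mdesc_field (k := k) (Set.finite_range (Function.uncurry Φ))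
  obtain ⟨L, hL, b₀, b₁, b₂, b₃, b₄, b₅⟩ : ∃ L : IntermediateField k (AlgebraicClosure k),
      FiniteDimensional k L ∧ L₀ ≤ L ∧ K₁ ≤ L ∧ K₂ ≤ L ∧ K₃ ≤ L ∧ K₄ ≤ L ∧ K₅ ≤ L :=
    ⟨L₀ ⊔ K₁ ⊔ (K₂ ⊔ (K₃ ⊔ (K₄ ⊔ K₅))), inferInstance, le_sup_of_le_left le_sup_left,
      le_sup_of_le_left le_sup_right, le_sup_of_le_right le_sup_left,
      le_sup_of_le_right (le_sup_of_le_right le_sup_left),
      le_sup_of_le_right (le_sup_of_le_right (le_sup_of_le_right le_sup_left)),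
      le_sup_of_le_right (le_sup_of_le_right (le_sup_of_le_right le_sup_right))⟩
  have hN : NumberField L := NumberField.of_module_finite k L
  choose ψ₀ hψ using fun l => a₁ L b₁ _ (.inr ⟨l, rfl⟩)
  choose E₀ hE₀ using fun l => a₂ L b₂ _ (.inl ⟨l, rfl⟩)
  choose χ₀ hχ using fun l => a₂ L b₂ _ (.inr ⟨l, rfl⟩)
  choose Ψ₀ hΨ₀ using fun a b => a₃ L b₃ (Ψ a b) ⟨(a, b), rfl⟩
  choose Φ₀ hΦ₀ using fun a b => a₅ L b₅ (Φ a b) ⟨(a, b), rfl⟩
  have hm := dn_map (K := L) hS.symm fun P hP => a₁ L b₁ P (.inl hP)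
  have hm' := dn_map (K := L) hT.symm (a₄ L b₄)
  have ev : ∀ {σ : Type} (v : σ → AlgebraicClosure k) (P : MvPolynomial σ L),
      aeval v P = eval v (map (algebraMap L (AlgebraicClosure k)) P) := fun v P => by
    rw [eval_map, aeval_def]
  obtain ⟨B, hB, h1, h2, h3, h4, e, he⟩ := hC.exists_gv hm (Φ := Ψ₀)
    (by simpa only [hΨ₀] using hΨ) (by simpa only [hΨ₀] using hw)
  obtain ⟨B', -, -, e', he'⟩ := exists_av (AlgebraicClosure k) (dn L J) (dn_hom hJ.hom)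
    (hm'.symm ▸ hJ.prime) A c hJ.ne (fun x P hP => (ev _ P).trans (hJ.zero x _ hP))
    (fun v hv hz => hJ.bij v hv fun P hP => aeval_of_mem_map hz P (hm'.symm ▸ hP))
    Φ₀ (fun a b => wh_of_map (Ω := AlgebraicClosure k) ((hΦ₀ a b).symm ▸ hΦ.1 a b)) fun x y => by
      obtain ⟨c, hc, e⟩ := hΦ.2 x y
      exact ⟨c, hc, fun a b => by rw [ev, hΦ₀ a b, e]⟩
  obtain ⟨π', hπ⟩ := exists_proj π e he e' he' fun p => by
    obtain ⟨a, ha⟩ := Function.ne_iff.1 (hE.ne p)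
    obtain ⟨ix, ⟨γ, rfl⟩, hx⟩ := hE.crd a
    obtain ⟨ρ, hρ⟩ := hx p
    choose m hm using fun j => Function.ne_iff.1 (h.ne p j)
    exact ⟨fun γ => ((ix γ, fun t => m (jx tm (fun _ => false) t)), fun _ => false),
      ρ * ∏ t, y p (jx tm (fun _ => false) t, m (jx tm (fun _ => false) t)),
      mul_ne_zero (left_ne_zero_of_mul (hρ γ ▸ ha)) (Finset.prod_ne_zero_iff.2 fun t _ => hm _),
      fun γ => by rw [zt, hρ, mul_right_comm]⟩
  obtain ⟨rk, φ, hφ⟩ := exists_mw B hE.surj h1 h2 B' π' fun P hP ε => by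
    have h5 := hπ P
    rw [hP, map_zero, eq_comm, map_eq_zero_iff _ e'.injective, h.ker] at h5
    obtain ⟨t, ht⟩ := h5
    obtain ⟨r, -, hr⟩ := hE.act h 0 t.toMul
    have h6 := he (θ t)
    rw [ht, e.apply_symm_apply, ← ht] at h6
    obtain ⟨u, hu⟩ := h6.exists_smul ((GV.rep_co P).map (Algebra.ofId L _))
    obtain ⟨u', hu'⟩ := GV.rep_zero.exists_smul (map_zero e ▸ he 0)
    rw [zero_add, ofMul_toMul] at hr
    refine mdesc_rat (Ω := AlgebraicClosure k)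
      (C := u * r * ch (fun l => (t.toMul (tm l) : AlgebraicClosure k)) ε * u') fun a => ?_
    refine (hu (a, ε)).trans ?_
    rw [hr, Pi.smul_apply, smul_eq_mul, Sa.act, hu', cls]
    ring
  have hz : (fun a => map (algebraMap L (AlgebraicClosure k)) (zt tm E₀ χ₀ a)) = zt tm E' χ :=
    funext fun a => by simp only [zt, map_mul, map_prod, hE₀, hχ]
  rw [← hz, ← funext hψ] at h₁ h₂
  exact ⟨L, hN, b₀, ⟨B, tm, hE.surj, h1, h2, h3, h4, rk, φ, hφ⟩, E₀, χ₀, ψ₀, h1.cl, hχ,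
    hB ▸ inv_dn h₁, hB ▸ inv_dn h₂⟩

end Pool.Agent.Lib.MP_8865d3_nt.Sx
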