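import Pool.Agent.Lib.MP_8865d3_nt.Sx.Core
import Pool.Agent.Lib.MP_8865d3_nt.Sx.Lift
import Pool.Agent.Lib.MP_8865d3_nt.Sx.Desc

/-! The cover, its charts and the semiabelian variety over one number field. -/

namespace Pool.Agent.Lib.MP_8865d3_nt.Sx

open MvPolynomial Module NumberField Height Pool.Agent.Lib.MP_651af7_nt Av Bx Ds Et
open Pool.Agent.Lib.MP_8865d3_nt.Sa

theorem setup {k κ σ ι μ : Type} [Field k] [NumberField k] [Fintype κ] [Fintype σ] [Fintype ι]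
    [Fintype μ] {n g : ℕ} {I' : Ideal (MvPolynomial σ (AlgebraicClosure k))}
    {I : Ideal (MvPolynomial κ k)} {f : (σ → AlgebraicClosure k) → κ → AlgebraicClosure k}
    (hI : Var I) (hs : Smooth I g) (hI' : Var I')
    (h : Etale I' (I.map (map (algebraMap k (AlgebraicClosure k)))) f)
    {Q : Ideal (MvPolynomial (ι ⊕ Fin (n + 1) × μ) (AlgebraicClosure k))} (hQ : Semiab Q)
    {φ : ι → MvPolynomial σ (AlgebraicClosure k)}
    {χ : Fin (n + 1) × μ → MvPolynomial σ (AlgebraicClosure k)}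
    {ψ : σ → MvPolynomial (ι ⊕ Fin (n + 1) × μ) (AlgebraicClosure k)} (hb : BirQ I' Q φ χ ψ) :
    ∃ (K : IntermediateField k (AlgebraicClosure k)) (_ : NumberField K)
      (I₁ : Ideal (MvPolynomial σ K)) (χ₀ : Fin (n + 1) × μ → MvPolynomial σ K) (T : Type)
      (_ : Fintype T) (d : ℕ) (π : T → κ → MvPolynomial σ K) (a : ℕ) (C : ℝ), Var I₁ ∧
      Cov I₁ (up K I) d π ∧ (∀ t t' i j, π t i * π t' j - π t j * π t' i ∈ I₁) ∧
      (∀ t, (∃ l, π t l ∉ I₁) → ∀ (P : MvPolynomial κ k) m, P.IsHomogeneous m →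
        (aeval (π t) P ∈ I₁ ↔ P ∈ I)) ∧
      (∀ {β γ : Type} [Fintype β] [Fintype γ] {F : β → MvPolynomial σ K}
        {G : γ → MvPolynomial σ K} {e e' : ℕ} {ε : ℝ}, (∀ l, (F l).IsHomogeneous e) →
        (∀ l, (G l).IsHomogeneous e') → VI I₁ g F G → 0 < ε → Cc I₁ g χ₀ F e G e' ε) ∧
      ∀ (H : MvPolynomial σ K) (t : ℕ), H.IsHomogeneous t → H ∉ I₁ →
      ∃ (Θ : MvPolynomial κ k) (t' : ℕ), Θ.IsHomogeneous t' ∧ Θ ∉ I ∧
        ∀ (x : κ → k) (y₀ : σ → AlgebraicClosure k), x ≠ 0 → eval x Θ ≠ 0 →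
        Ov I' f (fun i => algebraMap k (AlgebraicClosure k) (x i)) y₀ →
        ∃ (y : σ → K) (s : T → K) (u : AlgebraicClosure k), y ≠ 0 ∧
        (∀ P ∈ I₁, eval y P = 0) ∧ eval y H ≠ 0 ∧
        (∀ t i, eval y (π t i) = s t * algebraMap k K (x i)) ∧
        logHeight y ≤ a * logHeight (fun i => algebraMap k K (x i)) + C ∧
        ∀ j, algebraMap K (AlgebraicClosure k) (eval y (χ₀ j)) = u * eval y₀ (χ j) := by
  obtain ⟨J, A, G', _, _, co, p, θ, y, hJ, hA, hG, rfl⟩ := hQ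
  obtain ⟨m, J', c, Φ, hJ', hΦ, h₁, h₂⟩ := Cu.model hJ hA
  have hy := fun j => mor_trans (fun p => hJ.ne _) (mor_comp h₂ p) (hG.mor j)
  obtain ⟨s, tm, ν, _, E, hE⟩ := hG.exists_tens hJ.ne hJ' hΦ h₂ hy
  have hC := hE.cone hG hJ' hy
  obtain ⟨E', ψ', i₁, i₂⟩ := hE.inv hG hJ hJ'.ne h₁ h₂ hC.prime hI'.isPrime hI'.hom hb
  obtain ⟨b, hb₁⟩ : ∃ b, X b ∉ I' := by
    by_contra! hc
    obtain ⟨i, hi⟩ := i₁.ne
    exact hi (i₁.map _ (by simpa only [aeval_X] using i₂.map _ (hc i)))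
  obtain ⟨T, hT, d, π, c1, c2⟩ := h.family
  obtain ⟨L, _, Θ₁, t₁, a, l1, l2, l3⟩ := lift_all (k := k) h hI' hI.prime (Ds.hom_map hI.hom) hb₁
  obtain ⟨s', hs'⟩ : I'.FG := IsNoetherian.noetherian I'
  obtain ⟨K₁, _, k1, f1⟩ := ex_field L
    (Sum.elim (Subtype.val : s' → _) fun p : T × κ => π p.1 p.2)
  obtain ⟨K, hK, k2, M, E₀, χ₀, ψ₀, hcl, hχ, j₁, j₂⟩ := descend hG hE hJ' hΦ hC i₁ i₂ K₁
  choose π' hπ using fun t i => f1 K k2 (.inr (t, i))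
  obtain rfl : π = fun t i => map (algebraMap K _) (π' t i) := (funext₂ hπ).symm
  have m1 := dn_map (K := K) hs'.symm fun P hP => f1 K k2 (.inl ⟨P, hP⟩)
  obtain ⟨C, hC⟩ := l3 K (k1.trans k2)
  obtain ⟨dχ, hd⟩ := hb.hom₂
  obtain ⟨j₀, hj⟩ := hb.ne₂
  have e0 : ∀ t (P : MvPolynomial κ k), map (algebraMap K (AlgebraicClosure k)) (aeval (π' t) P) =
      aeval (fun i => map (algebraMap K (AlgebraicClosure k)) (π' t i)) P := fun t =>
    comp_aeval_apply (π' t) (mapAlgHom (IsScalarTower.toAlgHom k K (AlgebraicClosure k)))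
  refine ⟨K, hK, dn K I', χ₀, T, hT, d, π', a, C, var_dn hI' m1,
    cov_dn h hI' hI ⟨b, hb₁⟩ m1 c1 c2, fun t t' i j => ?_, fun t ht P r hP => ?_,
    fun hF hG' hv hε => of_model (d := dχ) (j := j₀) M hE.surj hcl (var_dn hI' m1)
      (smooth_dn (fun y y0 hy => ?_) m1) j₁ j₂ (fun j => wh_of_map (Ω := AlgebraicClosure k)
        ((hχ j).symm ▸ hd j)) (fun e => hj (hb.map₃ _ (hχ j₀ ▸ mem_dn.1 e))) hF hG' hv hε,
    fun H t hH H0 => ?_⟩
  · simpa only [mem_dn, map_sub, map_mul] using (c1 t).prop hI' ⟨b, hb₁⟩ (c1 t') i j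
  · rw [mem_dn, e0, ← aeval_map_algebraMap (AlgebraicClosure k)]
    exact ⟨fun h5 => mem_of_map_mem (h.mem_of_aeval hI'
      (Lr.up_eq (K := AlgebraicClosure k) I ▸ var_up hI) (c1 t) ht (hP.map _) h5), fun h5 =>
      h.map_mem hI' ⟨b, hb₁⟩ (Ds.hom_map hI.hom) (c1 t) _ (Ideal.mem_map_of_mem _ h5)⟩
  · have h5 := (zero_map (K := AlgebraicClosure k)).1 (h.map y y0 hy).2
    rw [h.rank y0 hy, tsp_map h5]
    exact hs _ (h.map y y0 hy).1 h5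
  obtain ⟨Θ₂, t₂, n1, n2, n3⟩ := alg_ne h hI' (Ds.hom_map hI.hom) hb₁ (hH.map _) H0
  obtain ⟨Θ, u1, u2, u3⟩ := ex_theta (l1.mul n1) fun e => (hI.prime.mem_or_mem e).elim l2 n2
  refine ⟨Θ, _, u1, u2, fun x y₀ x0 xΘ hy₀ => ?_⟩
  have h5 := u3 x xΘ
  rw [map_mul, mul_ne_zero_iff] at h5
  obtain ⟨y, u, y1, y4, y2, y3⟩ := hC x y₀ x0 h5.1 hy₀
  have x0' : (fun i => algebraMap k (AlgebraicClosure k) (x i)) ≠ 0 := fun e =>
    x0 (funext fun a => (map_eq_zero _).1 (congrFun e a))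
  obtain ⟨i₀, hi₀⟩ := Function.ne_iff.1 x0
  refine ⟨y, fun t => eval y (π' t i₀) / algebraMap k K (x i₀), u ^ dχ, Function.ne_iff.2
    ⟨b, y1.trans_ne one_ne_zero⟩, fun P hP => (map_eq_zero _).1 ((ev_map y P).symm.trans
      (y2.2.1 _ hP)), fun e => n3 _ _ x0' y2 (by rw [y1, map_one]) h5.2
        (by rw [ev_map, e, map_zero]), fun t i => ?_, y3, fun j => ?_⟩
  · obtain ⟨c, hc⟩ := (c1 t).ov x0' y2
    rw [div_mul_eq_mul_div, eq_div_iff ((map_ne_zero _).2 hi₀)]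
    refine (algebraMap K (AlgebraicClosure k)).injective ?_
    rw [map_mul, map_mul, ← ev_map, ← ev_map, hc, hc, ← IsScalarTower.algebraMap_apply,
      ← IsScalarTower.algebraMap_apply, mul_right_comm]
  · rw [← ev_map, y4, hχ]
    exact eval_mul_of_hom (hd j) u y₀

end Pool.Agent.Lib.MP_8865d3_nt.Sx
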